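import Pool.Agent.V7H14.WP.Dim

/-!
The space of real Weil polynomials: one exceptional set for all number fields, examples of sparse sets of prime powers.
-/

set_option autoImplicit false

namespace Pool.Agent.V7H14.WP

open Polynomial MeasureTheory Filter Topology Pool.Agent.N578.LB Pool.Agent.N220.ME

lemma log_le (ε : ℝ) (hε : 0 < ε) (B : ℕ) (hB : 1 ≤ B) :
    ((Nat.log 2 B + 1 : ℕ) : ℝ) ≤ (2 / ε + 1) * (B : ℝ) ^ ε := by
  have hB1 : (1 : ℝ) ≤ B := by exact_mod_cast hB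
  have h1 : ((Nat.log 2 B : ℕ) : ℝ) ≤ Real.logb 2 B := by exact_mod_cast Real.natLog_le_logb B 2
  have h2 : Real.logb 2 B = Real.log B / Real.log 2 := rfl
  have h3 : (1 / 2 : ℝ) < Real.log 2 := by
    have := Real.log_two_gt_d9
    linarith
  have h4 : 0 ≤ Real.log B := Real.log_nonneg hB1
  have h5 : Real.log B / Real.log 2 ≤ 2 * Real.log B := by
    rw [div_le_iff₀ (by linarith)]
    nlinarith
  have h6 : Real.log B ≤ (B : ℝ) ^ ε / ε := Real.log_le_rpow_div (by linarith) hε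
  have h7 : (1 : ℝ) ≤ (B : ℝ) ^ ε := Real.one_le_rpow hB1 hε.le
  push_cast
  have h8 : (2 / ε + 1) * (B : ℝ) ^ ε = 2 * ((B : ℝ) ^ ε / ε) + (B : ℝ) ^ ε := by
    field_simp
  rw [h8]
  linarith

/-- the powers of a prime -/
theorem sparse_tower (p : ℕ) (hp : p.Prime) : SparsePowers {q | ∃ m : ℕ, 1 ≤ m ∧ q = p ^ m} 0 := by
  classical
  refine ⟨?_, fun ε hε => ⟨2 / ε + 1, fun B hB => ?_⟩⟩
  · rintro _ ⟨m, hm, rfl⟩
    exact hp.isPrimePow.pow (by omega)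
  · have hsub : {q | q ∈ {q | ∃ m : ℕ, 1 ≤ m ∧ q = p ^ m} ∧ q ≤ B} ⊆
        (((Finset.range (Nat.log 2 B + 1)).image fun m => p ^ m : Finset ℕ) : Set ℕ) := by
      rintro _ ⟨⟨m, hm, rfl⟩, h2⟩
      rw [Finset.mem_coe, Finset.mem_image]
      refine ⟨m, ?_, rfl⟩
      rw [Finset.mem_range, Nat.lt_succ_iff]
      refine Nat.le_log_of_pow_le (by norm_num) ((Nat.pow_le_pow_left hp.two_le m).trans h2)
    have h1 := Set.ncard_le_ncard hsub (Finset.finite_toSet _)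
    rw [Set.ncard_coe_finset] at h1
    have h2 : ((Finset.range (Nat.log 2 B + 1)).image fun m => p ^ m).card ≤ Nat.log 2 B + 1 :=
      Finset.card_image_le.trans (by rw [Finset.card_range])
    have h3 : ({q | q ∈ {q | ∃ m : ℕ, 1 ≤ m ∧ q = p ^ m} ∧ q ≤ B}.ncard : ℝ) ≤ ((Nat.log 2 B + 1 : ℕ) : ℝ) := by
      exact_mod_cast h1.trans h2
    rw [zero_add]
    exact h3.trans (log_le ε hε B hB)

/-- the powers of primes with exponents at least `k` -/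
theorem sparse_powers (k : ℕ) (hk : 1 ≤ k) :
    SparsePowers {q | ∃ p m : ℕ, p.Prime ∧ k ≤ m ∧ q = p ^ m} (1 / k) := by
  classical
  refine ⟨?_, fun ε hε => ⟨2 / ε + 1, fun B hB => ?_⟩⟩
  · rintro _ ⟨p, m, hp, hm, rfl⟩
    exact hp.isPrimePow.pow (by omega)
  · have hk0 : (0 : ℝ) < k := by exact_mod_cast hk
    have hB1 : (1 : ℝ) ≤ B := by exact_mod_cast hB
    obtain ⟨R, hR⟩ : ∃ R : ℕ, R = ⌊(B : ℝ) ^ (1 / (k : ℝ))⌋₊ := ⟨_, rfl⟩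
    have hsub : {q | q ∈ {q | ∃ p m : ℕ, p.Prime ∧ k ≤ m ∧ q = p ^ m} ∧ q ≤ B} ⊆
        (((Finset.Icc 1 R ×ˢ Finset.range (Nat.log 2 B + 1)).image fun z => z.1 ^ z.2 : Finset ℕ) : Set ℕ) := by
      rintro _ ⟨⟨p, m, hp, hm, rfl⟩, h2⟩
      rw [Finset.mem_coe, Finset.mem_image]
      refine ⟨(p, m), ?_, rfl⟩
      rw [Finset.mem_product, Finset.mem_range, Nat.lt_succ_iff, Finset.mem_Icc]
      refine ⟨⟨hp.one_lt.le, ?_⟩, Nat.le_log_of_pow_le (by norm_num) ((Nat.pow_le_pow_left hp.two_le m).trans h2)⟩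
      rw [hR]
      refine Nat.le_floor ?_
      have h3 : p ^ k ≤ B := (Nat.pow_le_pow_right hp.pos hm).trans h2
      have h4 : ((p : ℝ)) ^ (k : ℝ) ≤ B := by
        rw [Real.rpow_natCast]
        exact_mod_cast h3
      have h5 := Real.rpow_le_rpow (by positivity) h4 (show 0 ≤ 1 / (k : ℝ) by positivity)
      rwa [← Real.rpow_mul (by positivity), mul_one_div, div_self hk0.ne', Real.rpow_one] at h5
    have h1 := Set.ncard_le_ncard hsub (Finset.finite_toSet _)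
    rw [Set.ncard_coe_finset] at h1
    have h2 : ((Finset.Icc 1 R ×ˢ Finset.range (Nat.log 2 B + 1)).image fun z => z.1 ^ z.2).card ≤
        R * (Nat.log 2 B + 1) := by
      refine Finset.card_image_le.trans ?_
      rw [Finset.card_product, Finset.card_range, Nat.card_Icc]
      simp
    have h3 : ({q | q ∈ {q | ∃ p m : ℕ, p.Prime ∧ k ≤ m ∧ q = p ^ m} ∧ q ≤ B}.ncard : ℝ) ≤
        (R : ℝ) * ((Nat.log 2 B + 1 : ℕ) : ℝ) := by
      exact_mod_cast h1.trans h2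
    have h4 : (R : ℝ) ≤ (B : ℝ) ^ (1 / (k : ℝ)) := by
      rw [hR]
      exact Nat.floor_le (by positivity)
    refine h3.trans ((mul_le_mul h4 (log_le ε hε B hB) (Nat.cast_nonneg _) (by positivity)).trans (le_of_eq ?_))
    rw [Real.rpow_add (by linarith)]
    ring

variable {I : Type} [Fintype I] [DecidableEq I]

/-- **One exceptional set for all number fields and all ranks.** -/
theorem dim_all (g : I → ℕ) (P : IntermediateField ℚ ℂ → ℕ → ℕ → (I → ℤ[X]) → Prop)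
    (hP : ∀ E : IntermediateField ℚ ℂ, FiniteDimensional ℚ E → ∀ r : ℕ, (∀ i, r < g i) → InAllLattices g (P E r))
    {G : ℕ} (hG : ∀ i, g i ≤ G) (hn : 0 < ∑ i, g i) (𝒬 : Set ℕ) (τ η : ℝ) (hτ : 0 ≤ τ)
    (h𝒬 : SparsePowers 𝒬 τ) (hη : 0 ≤ η) (h : (∑ i, g i : ℕ) * η + τ < 1 / 6) :
    ∃ Z : Set ((Σ i, Fin (g i)) → ℝ),
      dimH Z ≤ ENNReal.ofReal ((∑ i, g i : ℕ) - (1 / 6 - (∑ i, g i : ℕ) * η - τ) / ((G : ℝ) / 2 - η)) ∧
      ∀ ξ, ξ ∉ Z → ∀ E : IntermediateField ℚ ℂ, FiniteDimensional ℚ E → ∀ r : ℕ, (∀ i, r < g i) →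
        {q | q ∈ 𝒬 ∧ ¬ AllNear g (P E r) η q ξ}.Finite := by
  haveI := countable_fields
  have h1 : ∀ z : {E : IntermediateField ℚ ℂ // FiniteDimensional ℚ E} × ℕ, ∃ Z : Set ((Σ i, Fin (g i)) → ℝ),
      dimH Z ≤ ENNReal.ofReal ((∑ i, g i : ℕ) - (1 / 6 - (∑ i, g i : ℕ) * η - τ) / ((G : ℝ) / 2 - η)) ∧
      ∀ ξ, ξ ∉ Z → (∀ i, z.2 < g i) → {q | q ∈ 𝒬 ∧ ¬ AllNear g (P z.1.1 z.2) η q ξ}.Finite := by
    intro z
    by_cases hr : ∀ i, z.2 < g i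
    · obtain ⟨Z, hZ1, hZ2⟩ := dim_near g _ (hP z.1.1 z.1.2 z.2 hr) hG hn 𝒬 τ η hτ h𝒬 hη h
      exact ⟨Z, hZ1, fun ξ hξ _ => hZ2 ξ hξ⟩
    · exact ⟨∅, by simp, fun ξ _ h2 => absurd h2 hr⟩
  choose Z hZ1 hZ2 using h1
  refine ⟨⋃ z, Z z, ?_, fun ξ hξ E hE r hr => ?_⟩
  · rw [dimH_iUnion]
    exact iSup_le hZ1
  · rw [Set.mem_iUnion, not_exists] at hξ
    exact hZ2 (⟨E, hE⟩, r) ξ (hξ _) hr

/-- the powers of all primes -/
theorem dim_towers (g : I → ℕ) (P : IntermediateField ℚ ℂ → ℕ → ℕ → (I → ℤ[X]) → Prop)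
    (hP : ∀ E : IntermediateField ℚ ℂ, FiniteDimensional ℚ E → ∀ r : ℕ, (∀ i, r < g i) → InAllLattices g (P E r))
    {G : ℕ} (hG : ∀ i, g i ≤ G) (hn : 0 < ∑ i, g i) (η : ℝ) (hη : 0 ≤ η) (h : (∑ i, g i : ℕ) * η < 1 / 6) :
    ∃ Z : Set ((Σ i, Fin (g i)) → ℝ),
      dimH Z ≤ ENNReal.ofReal ((∑ i, g i : ℕ) - (1 / 6 - (∑ i, g i : ℕ) * η) / ((G : ℝ) / 2 - η)) ∧
      ∀ ξ, ξ ∉ Z → ∀ E : IntermediateField ℚ ℂ, FiniteDimensional ℚ E → ∀ r : ℕ, (∀ i, r < g i) →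
        ∀ p : ℕ, p.Prime → ∀ᶠ m : ℕ in atTop, AllNear g (P E r) η (p ^ m) ξ := by
  have h1 : ∀ p : {p : ℕ // p.Prime}, ∃ Z : Set ((Σ i, Fin (g i)) → ℝ),
      dimH Z ≤ ENNReal.ofReal ((∑ i, g i : ℕ) - (1 / 6 - (∑ i, g i : ℕ) * η - 0) / ((G : ℝ) / 2 - η)) ∧
      ∀ ξ, ξ ∉ Z → ∀ E : IntermediateField ℚ ℂ, FiniteDimensional ℚ E → ∀ r : ℕ, (∀ i, r < g i) →
        {q | q ∈ {q | ∃ m : ℕ, 1 ≤ m ∧ q = p.1 ^ m} ∧ ¬ AllNear g (P E r) η q ξ}.Finite := fun p =>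
    dim_all g P hP hG hn _ 0 η le_rfl (sparse_tower p.1 p.2) hη (by linarith)
  choose Z hZ1 hZ2 using h1
  refine ⟨⋃ p, Z p, ?_, fun ξ hξ E hE r hr p hp => ?_⟩
  · rw [dimH_iUnion]
    refine iSup_le fun p => ?_
    have := hZ1 p
    rwa [sub_zero] at this
  · rw [Set.mem_iUnion, not_exists] at hξ
    have h2 := hZ2 ⟨p, hp⟩ ξ (hξ _) E hE r hr
    have hinj : Function.Injective (fun m : ℕ => p ^ m) := Nat.pow_right_injective hp.two_le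
    have h3 : {m : ℕ | 1 ≤ m ∧ ¬ AllNear g (P E r) η (p ^ m) ξ}.Finite := by
      refine Set.Finite.of_finite_image (f := fun m => p ^ m) (h2.subset ?_) hinj.injOn
      rintro _ ⟨m, ⟨h4, h5⟩, rfl⟩
      exact ⟨⟨m, h4, rfl⟩, h5⟩
    have h4 : ∀ᶠ m : ℕ in cofinite, ¬ (1 ≤ m ∧ ¬ AllNear g (P E r) η (p ^ m) ξ) := h3.compl_mem_cofinite
    rw [Nat.cofinite_eq_atTop] at h4
    filter_upwards [h4, eventually_ge_atTop 1] with m h5 h6
    by_contra h7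
    exact h5 ⟨h6, h7⟩

theorem nearReal (g : I → ℕ) (P : IntermediateField ℚ ℂ → ℕ → ℕ → (I → ℤ[X]) → Prop)
    (hP : ∀ E : IntermediateField ℚ ℂ, FiniteDimensional ℚ E → ∀ r : ℕ, (∀ i, r < g i) → InAllLattices g (P E r))
    (hn : 0 < ∑ i, g i) : NearReal g P := by
  intro G hG
  refine ⟨fun 𝒬 τ η h1 h2 h3 h4 => dim_all g P hP hG hn 𝒬 τ η h1 h2 h3 h4,
    fun η h1 h2 => dim_towers g P hP hG hn η h1 h2, fun k η h1 h2 h3 => ?_, allFields g P hP⟩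
  exact dim_all g P hP hG hn _ (1 / k) η (by positivity) (sparse_powers k (by omega)) h2 h3

end Pool.Agent.V7H14.WP
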