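import Mathlib
import Pool.Agent.N220.ME.Def

/-!
# Almost every point of the space of real Weil polynomials: the Hausdorff dimension of the exceptional set, definitions
-/

set_option autoImplicit false

namespace Pool.Agent.V7H14.WP

open Polynomial MeasureTheory Filter Topology Pool.Agent.N578.LB Pool.Agent.N220.ME

/-- The set `𝒬` consists of prime powers, and for all `ε > 0` it has at most `C B ^ (τ + ε)` elements up to `B`. -/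
def SparsePowers (𝒬 : Set ℕ) (τ : ℝ) : Prop :=
  (∀ q ∈ 𝒬, IsPrimePow q) ∧
    ∀ ε : ℝ, 0 < ε → ∃ C : ℝ, ∀ B : ℕ, 1 ≤ B → ({q | q ∈ 𝒬 ∧ q ≤ B}.ncard : ℝ) ≤ C * (B : ℝ) ^ (τ + ε)

variable {I : Type} [Fintype I]

/-- The conclusion for all properties of the points of `ℤ ^ n`, `n = ∑ g i`. -/
def NearReal (g : I → ℕ) (P : IntermediateField ℚ ℂ → ℕ → ℕ → (I → ℤ[X]) → Prop) : Prop :=
  ∀ G : ℕ, (∀ i, g i ≤ G) →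
  (∀ (𝒬 : Set ℕ) (τ η : ℝ), 0 ≤ τ → SparsePowers 𝒬 τ → 0 ≤ η → (∑ i, g i : ℕ) * η + τ < 1 / 6 →
    ∃ Z : Set ((Σ i, Fin (g i)) → ℝ),
      dimH Z ≤ ENNReal.ofReal ((∑ i, g i : ℕ) - (1 / 6 - (∑ i, g i : ℕ) * η - τ) / ((G : ℝ) / 2 - η)) ∧
      ∀ ξ, ξ ∉ Z → ∀ E : IntermediateField ℚ ℂ, FiniteDimensional ℚ E → ∀ r : ℕ, (∀ i, r < g i) →
        {q | q ∈ 𝒬 ∧ ¬ AllNear g (P E r) η q ξ}.Finite) ∧
  (∀ η : ℝ, 0 ≤ η → (∑ i, g i : ℕ) * η < 1 / 6 → ∃ Z : Set ((Σ i, Fin (g i)) → ℝ),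
      dimH Z ≤ ENNReal.ofReal ((∑ i, g i : ℕ) - (1 / 6 - (∑ i, g i : ℕ) * η) / ((G : ℝ) / 2 - η)) ∧
      ∀ ξ, ξ ∉ Z → ∀ E : IntermediateField ℚ ℂ, FiniteDimensional ℚ E → ∀ r : ℕ, (∀ i, r < g i) →
        ∀ p : ℕ, p.Prime → ∀ᶠ m : ℕ in atTop, AllNear g (P E r) η (p ^ m) ξ) ∧
  (∀ (k : ℕ) (η : ℝ), 7 ≤ k → 0 ≤ η → (∑ i, g i : ℕ) * η + 1 / k < 1 / 6 → ∃ Z : Set ((Σ i, Fin (g i)) → ℝ),
      dimH Z ≤ ENNReal.ofReal ((∑ i, g i : ℕ) - (1 / 6 - (∑ i, g i : ℕ) * η - 1 / k) / ((G : ℝ) / 2 - η)) ∧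
      ∀ ξ, ξ ∉ Z → ∀ E : IntermediateField ℚ ℂ, FiniteDimensional ℚ E → ∀ r : ℕ, (∀ i, r < g i) →
        {q | (∃ p m : ℕ, p.Prime ∧ k ≤ m ∧ q = p ^ m) ∧ ¬ AllNear g (P E r) η q ξ}.Finite) ∧
  (∀ᵐ ξ : (Σ i, Fin (g i)) → ℝ, ∀ E : IntermediateField ℚ ℂ, FiniteDimensional ℚ E → ∀ r : ℕ, (∀ i, r < g i) →
      HoldsNear g (P E r) ξ)

end Pool.Agent.V7H14.WP
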