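import Pool.Agent.V7H14.WP.Def
import Pool.Agent.N220.ME.Final
import Pool.Agent.R559.NP.Near

/-!
Almost every point of the space of real Weil polynomials: the Hausdorff dimension of the exceptional set.
-/

set_option autoImplicit false

namespace Pool.Agent.V7H14.WP

open Polynomial MeasureTheory Filter Topology Pool.Agent.N578.LB Pool.Agent.N220.ME

section

variable {I : Type} [Fintype I]

omit [Fintype I] in
lemma expo_le {g : I → ℕ} {G : ℕ} (hG : ∀ i, g i ≤ G) (s : Σ i, Fin (g i)) : expo g s ≤ (G : ℝ) / 2 := by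
  unfold expo
  have h1 : ((g s.1 : ℕ) : ℝ) ≤ G := by exact_mod_cast hG s.1
  have h2 : (0 : ℝ) ≤ ((s.2 : ℕ) : ℝ) := Nat.cast_nonneg _
  linarith

variable [DecidableEq I]

omit [DecidableEq I] in
lemma card_idx (g : I → ℕ) : Fintype.card (Σ i, Fin (g i)) = ∑ i, g i := by
  rw [Fintype.card_sigma]
  simp

/-- the bad points of bounded normalised size -/
lemma count_bad (g : I → ℕ) (P : ℕ → (I → ℤ[X]) → Prop) (hP : InAllLattices g P) (K : ℕ) (δ : ℝ) (hδ : 0 < δ)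
    (hδ6 : δ ≤ 1 / 6) : ∃ D : ℝ, 0 ≤ D ∧ ∀ q : ℕ, IsPrimePow q →
      {x : (Σ i, Fin (g i)) → ℤ | x ∈ Bad g P q ∧ ∀ s, |(x s : ℝ)| ≤ (K + 1) * (q : ℝ) ^ expo g s}.Finite ∧
      ({x : (Σ i, Fin (g i)) → ℤ | x ∈ Bad g P q ∧ ∀ s, |(x s : ℝ)| ≤ (K + 1) * (q : ℝ) ^ expo g s}.ncard : ℝ) ≤
        D * ((q : ℝ) ^ (δ - 1 / 6) * ∏ s, (q : ℝ) ^ expo g s) := by
  classical
  obtain ⟨C, hC⟩ := hP.1
  refine ⟨|C| * (1 / δ) * (2 * (K : ℝ) + 6) ^ Fintype.card (Σ i, Fin (g i)), by positivity, fun q hq => ?_⟩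
  have hq1 : (1 : ℝ) ≤ q := by exact_mod_cast hq.one_lt.le
  have hq0 : (0 : ℝ) < q := by linarith
  obtain ⟨T, hT⟩ : ∃ T : (Σ i, Fin (g i)) → ℕ, T = fun s => ⌈((K : ℝ) + 1) * (q : ℝ) ^ expo g s⌉₊ := ⟨_, rfl⟩
  have hpe : ∀ s, (1 : ℝ) ≤ (q : ℝ) ^ expo g s := fun s =>
    Real.one_le_rpow hq1 (by linarith [expo_ge g s])
  have hT1 : ∀ s, ((K : ℝ) + 1) * (q : ℝ) ^ expo g s ≤ T s := by
    intro s
    rw [hT]
    exact Nat.le_ceil _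
  have hT2 : ∀ s, (T s : ℝ) ≤ ((K : ℝ) + 2) * (q : ℝ) ^ expo g s := by
    intro s
    have h1 : (T s : ℝ) < ((K : ℝ) + 1) * (q : ℝ) ^ expo g s + 1 := by
      rw [hT]
      exact Nat.ceil_lt_add_one (by have := hpe s; positivity)
    have := hpe s
    linarith
  obtain ⟨B, hB⟩ : ∃ B : ℝ, B = 2 * (q : ℝ) ^ (1 / 2 : ℝ) := ⟨_, rfl⟩
  have hsq : (1 : ℝ) ≤ (q : ℝ) ^ (1 / 2 : ℝ) := Real.one_le_rpow hq1 (by norm_num)
  have hB2 : 2 ≤ B := by rw [hB]; linarith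
  have hBN : ∀ s, B ≤ ((2 * T s + 1 : ℕ) : ℝ) := by
    intro s
    have h1 : (q : ℝ) ^ (1 / 2 : ℝ) ≤ (q : ℝ) ^ expo g s := Real.rpow_le_rpow_of_exponent_le hq1 (expo_ge g s)
    have h2 := hT1 s
    have h3 : (q : ℝ) ^ expo g s ≤ ((K : ℝ) + 1) * (q : ℝ) ^ expo g s := by
      have : (0 : ℝ) ≤ K := Nat.cast_nonneg K
      nlinarith [hpe s]
    rw [hB]
    push_cast
    linarith
  have hmain := hC q hq B hB2 1 (by rw [Matrix.det_one]; exact one_ne_zero)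
    (by rw [Matrix.det_one]; simp; positivity) 0 (fun s => -(T s : ℤ)) (fun s => 2 * T s + 1) hBN
  simp only [Matrix.one_mulVec, zero_add] at hmain
  obtain ⟨F, hF⟩ : ∃ F : Set ((Σ i, Fin (g i)) → ℤ), F = {y | (∀ s, -(T s : ℤ) ≤ y s ∧
    y s < -(T s : ℤ) + ((2 * T s + 1 : ℕ) : ℤ)) ∧ (∀ i, ¬ (q : ℤ) ∣ (hpoly g y i).nextCoeff ^ 2) ∧
      ¬ P q (fun i => fpoly q (hpoly g y i))} := ⟨_, rfl⟩
  rw [← hF] at hmain
  have hFfin : F.Finite := by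
    refine (Set.finite_Icc (fun s => -(T s : ℤ)) (fun s => (T s : ℤ))).subset ?_
    intro y hy
    rw [hF] at hy
    rw [Set.mem_Icc, Pi.le_def, Pi.le_def]
    exact ⟨fun s => (hy.1 s).1, fun s => by have := (hy.1 s).2; push_cast at this; omega⟩
  have hsub : {x : (Σ i, Fin (g i)) → ℤ | x ∈ Bad g P q ∧ ∀ s, |(x s : ℝ)| ≤ (K + 1) * (q : ℝ) ^ expo g s} ⊆ F := by
    rintro x ⟨hx, hx2⟩
    rw [hF]
    refine ⟨fun s => ?_, hx.1, hx.2⟩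
    have h10 : |(x s : ℝ)| ≤ T s := (hx2 s).trans (hT1 s)
    have h11 : |x s| ≤ (T s : ℤ) := by exact_mod_cast h10
    rw [abs_le] at h11
    push_cast
    omega
  refine ⟨hFfin.subset hsub, ?_⟩
  have hlog : Real.log B * B ^ (-(1 / 3) : ℝ) ≤ 1 / δ * (q : ℝ) ^ (δ - 1 / 6) := by
    have hB0 : 0 < B := by linarith
    have h1 : Real.log B ≤ B ^ (2 * δ) / (2 * δ) := Real.log_le_rpow_div hB0.le (by linarith)
    have h2 : B ^ (2 * δ) * B ^ (-(1 / 3) : ℝ) = B ^ (2 * δ - 1 / 3) := by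
      rw [← Real.rpow_add hB0]
      congr 1
    have h3 : B ^ (2 * δ - 1 / 3) ≤ (q : ℝ) ^ (δ - 1 / 6) := by
      rw [hB, Real.mul_rpow (by norm_num) (by positivity), ← Real.rpow_mul hq0.le]
      have h4 : (2 : ℝ) ^ (2 * δ - 1 / 3) ≤ 1 := Real.rpow_le_one_of_one_le_of_nonpos (by norm_num) (by linarith)
      have h5 : (1 / 2 : ℝ) * (2 * δ - 1 / 3) = δ - 1 / 6 := by ring
      rw [h5]
      have h6 : (0 : ℝ) < (q : ℝ) ^ (δ - 1 / 6) := Real.rpow_pos_of_pos hq0 _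
      nlinarith
    have h4 : 0 < B ^ (-(1 / 3) : ℝ) := Real.rpow_pos_of_pos hB0 _
    calc Real.log B * B ^ (-(1 / 3) : ℝ) ≤ B ^ (2 * δ) / (2 * δ) * B ^ (-(1 / 3) : ℝ) :=
          mul_le_mul_of_nonneg_right h1 h4.le
      _ = 1 / (2 * δ) * (B ^ (2 * δ) * B ^ (-(1 / 3) : ℝ)) := by ring
      _ = 1 / (2 * δ) * B ^ (2 * δ - 1 / 3) := by rw [h2]
      _ ≤ 1 / (2 * δ) * (q : ℝ) ^ (δ - 1 / 6) := mul_le_mul_of_nonneg_left h3 (by positivity)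
      _ ≤ 1 / δ * (q : ℝ) ^ (δ - 1 / 6) := by
          refine mul_le_mul_of_nonneg_right ?_ (by positivity)
          exact one_div_le_one_div_of_le hδ (by linarith)
  have hlog0 : 0 ≤ Real.log B * B ^ (-(1 / 3) : ℝ) :=
    mul_nonneg (Real.log_nonneg (by linarith)) (Real.rpow_nonneg (by linarith) _)
  have h1 : ∏ s : (Σ i, Fin (g i)), ((2 * T s + 1 : ℕ) : ℝ) ≤
      ∏ s : (Σ i, Fin (g i)), ((2 * (K : ℝ) + 6) * (q : ℝ) ^ expo g s) := by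
    refine Finset.prod_le_prod (fun s _ => Nat.cast_nonneg _) fun s _ => ?_
    have := hT2 s
    have := hpe s
    push_cast
    linarith
  have h2 : C * (Real.log B * B ^ (-(1 / 3) : ℝ)) ≤ |C| * (1 / δ * (q : ℝ) ^ (δ - 1 / 6)) :=
    (mul_le_mul_of_nonneg_right (le_abs_self C) hlog0).trans (mul_le_mul_of_nonneg_left hlog (abs_nonneg C))
  have h3 : ({x : (Σ i, Fin (g i)) → ℤ | x ∈ Bad g P q ∧ ∀ s, |(x s : ℝ)| ≤ (K + 1) * (q : ℝ) ^ expo g s}.ncard : ℝ) ≤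
      (F.ncard : ℝ) := by exact_mod_cast Set.ncard_le_ncard hsub hFfin
  refine h3.trans (hmain.trans ?_)
  refine (mul_le_mul_of_nonneg_right h2 (Finset.prod_nonneg fun s _ => Nat.cast_nonneg _)).trans ?_
  refine (mul_le_mul_of_nonneg_left h1 (by positivity)).trans (le_of_eq ?_)
  rw [Finset.prod_mul_distrib, Finset.prod_const, Finset.card_univ]
  ring

omit [Fintype I] [DecidableEq I] in
/-- the integral points of a segment -/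
lemma seg_count (c R : ℝ) (hR : 0 ≤ R) : (((Finset.Icc ⌈c - R⌉ ⌊c + R⌋).card : ℕ) : ℝ) ≤ 2 * R + 1 := by
  rw [Int.card_Icc]
  rcases le_total 0 (⌊c + R⌋ + 1 - ⌈c - R⌉) with h | h
  · have h1 : (((⌊c + R⌋ + 1 - ⌈c - R⌉).toNat : ℕ) : ℝ) = ((⌊c + R⌋ + 1 - ⌈c - R⌉ : ℤ) : ℝ) := by
      have h2 : (((⌊c + R⌋ + 1 - ⌈c - R⌉).toNat : ℕ) : ℤ) = ⌊c + R⌋ + 1 - ⌈c - R⌉ := Int.toNat_of_nonneg h
      exact_mod_cast congrArg (Int.cast : ℤ → ℝ) h2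
    rw [h1]
    push_cast
    have h3 := Int.floor_le (c + R)
    have h4 := Int.le_ceil (c - R)
    linarith
  · rw [Int.toNat_of_nonpos h]
    push_cast
    linarith

/-- the grid points near bad points -/
def Grid (g : I → ℕ) (P : ℕ → (I → ℤ[X]) → Prop) (G K : ℕ) (η : ℝ) (q : ℕ) : Set ((Σ i, Fin (g i)) → ℤ) :=
  {y | (∀ s, |(y s : ℝ)| * (q : ℝ) ^ (-((G : ℝ) / 2 - η)) ≤ K + 1) ∧
    ∃ x ∈ Bad g P q, ∀ s, |(x s : ℝ) - (q : ℝ) ^ expo g s * ((y s : ℝ) * (q : ℝ) ^ (-((G : ℝ) / 2 - η)))| ≤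
      2 * (q : ℝ) ^ η}

lemma count_grid (g : I → ℕ) (P : ℕ → (I → ℤ[X]) → Prop) (hP : InAllLattices g P) {G : ℕ} (hG : ∀ i, g i ≤ G)
    (K : ℕ) (η : ℝ) (hη2 : η ≤ 1 / 2) (δ : ℝ) (hδ : 0 < δ) (hδ6 : δ ≤ 1 / 6) :
    ∃ D : ℝ, 0 ≤ D ∧ ∀ q : ℕ, IsPrimePow q → (Grid g P G K η q).Finite ∧
      ((Grid g P G K η q).ncard : ℝ) ≤
        D * (q : ℝ) ^ ((Fintype.card (Σ i, Fin (g i)) : ℝ) * ((G : ℝ) / 2) - 1 / 6 + δ) := by
  classical
  obtain ⟨D, hD0, hD⟩ := count_bad g P hP (K + 2) δ hδ hδ6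
  refine ⟨D * 5 ^ Fintype.card (Σ i, Fin (g i)), by positivity, fun q hq => ?_⟩
  obtain ⟨hfin, hcard⟩ := hD q hq
  have hq1 : (1 : ℝ) ≤ q := by exact_mod_cast hq.one_lt.le
  have hq0 : (0 : ℝ) < q := by linarith
  obtain ⟨ρ, hρ⟩ : ∃ ρ : ℝ, ρ = (q : ℝ) ^ (-((G : ℝ) / 2 - η)) := ⟨_, rfl⟩
  have hρ0 : 0 < ρ := by rw [hρ]; exact Real.rpow_pos_of_pos hq0 _
  -- the product of segments around `x`
  let A : ((Σ i, Fin (g i)) → ℤ) → Finset ((Σ i, Fin (g i)) → ℤ) := fun x => Fintype.piFinset fun s =>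
    Finset.Icc ⌈(x s : ℝ) / ((q : ℝ) ^ expo g s * ρ) - 2 * (q : ℝ) ^ ((G : ℝ) / 2 - expo g s)⌉
      ⌊(x s : ℝ) / ((q : ℝ) ^ expo g s * ρ) + 2 * (q : ℝ) ^ ((G : ℝ) / 2 - expo g s)⌋
  have hsub : Grid g P G K η q ⊆ ((hfin.toFinset.biUnion A : Finset _) : Set ((Σ i, Fin (g i)) → ℤ)) := by
    rintro y ⟨hy1, x, hx, hxy⟩
    rw [← hρ] at hy1 hxy
    rw [Finset.mem_coe, Finset.mem_biUnion]
    have hqe : ∀ s, 0 < (q : ℝ) ^ expo g s := fun s => Real.rpow_pos_of_pos hq0 _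
    refine ⟨x, ?_, ?_⟩
    · rw [Set.Finite.mem_toFinset]
      refine ⟨hx, fun s => ?_⟩
      have h1 := hxy s
      have h2 : |(x s : ℝ)| ≤ |(x s : ℝ) - (q : ℝ) ^ expo g s * ((y s : ℝ) * ρ)| +
          |(q : ℝ) ^ expo g s * ((y s : ℝ) * ρ)| := by
        have := abs_add_le ((x s : ℝ) - (q : ℝ) ^ expo g s * ((y s : ℝ) * ρ)) ((q : ℝ) ^ expo g s * ((y s : ℝ) * ρ))
        rwa [sub_add_cancel] at this
      have h3 : |(q : ℝ) ^ expo g s * ((y s : ℝ) * ρ)| ≤ (q : ℝ) ^ expo g s * (K + 1) := by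
        rw [abs_mul, abs_mul, abs_of_pos (hqe s), abs_of_pos hρ0]
        exact mul_le_mul_of_nonneg_left (hy1 s) (hqe s).le
      have h4 : (q : ℝ) ^ η ≤ (q : ℝ) ^ expo g s :=
        Real.rpow_le_rpow_of_exponent_le hq1 (hη2.trans (expo_ge g s))
      push_cast
      nlinarith
    · show y ∈ Fintype.piFinset _
      rw [Fintype.mem_piFinset]
      intro s
      have ha : 0 < (q : ℝ) ^ expo g s * ρ := mul_pos (hqe s) hρ0
      have h1 := hxy s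
      have h2 : 2 * (q : ℝ) ^ ((G : ℝ) / 2 - expo g s) * ((q : ℝ) ^ expo g s * ρ) = 2 * (q : ℝ) ^ η := by
        have h3 : (q : ℝ) ^ ((G : ℝ) / 2 - expo g s) * ((q : ℝ) ^ expo g s * ρ) = (q : ℝ) ^ η := by
          rw [hρ, ← mul_assoc, ← Real.rpow_add hq0, ← Real.rpow_add hq0]
          congr 1
          ring
        rw [mul_assoc, h3]
      have h3 : |(x s : ℝ) / ((q : ℝ) ^ expo g s * ρ) - y s| ≤ 2 * (q : ℝ) ^ ((G : ℝ) / 2 - expo g s) := by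
        rw [← mul_le_mul_iff_left₀ ha, h2]
        refine le_trans (le_of_eq ?_) h1
        rw [← abs_of_pos ha, ← abs_mul, abs_of_pos ha]
        congr 1
        field_simp
      rw [abs_le] at h3
      rw [Finset.mem_Icc, Int.ceil_le, Int.le_floor]
      constructor <;> linarith [h3.1, h3.2]
  refine ⟨(Finset.finite_toSet _).subset hsub, ?_⟩
  have h1 : ((Grid g P G K η q).ncard : ℝ) ≤ ((hfin.toFinset.biUnion A).card : ℝ) := by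
    have := Set.ncard_le_ncard hsub (Finset.finite_toSet _)
    rw [Set.ncard_coe_finset] at this
    exact_mod_cast this
  have hA : ∀ x, ((A x).card : ℝ) ≤ ∏ s : (Σ i, Fin (g i)), (5 * (q : ℝ) ^ ((G : ℝ) / 2 - expo g s)) := by
    intro x
    show (((Fintype.piFinset _).card : ℕ) : ℝ) ≤ _
    rw [Fintype.card_piFinset]
    push_cast
    refine Finset.prod_le_prod (fun s _ => Nat.cast_nonneg _) fun s _ => ?_
    have h2 : (1 : ℝ) ≤ (q : ℝ) ^ ((G : ℝ) / 2 - expo g s) :=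
      Real.one_le_rpow hq1 (by linarith [expo_le hG s])
    refine (seg_count _ _ (by positivity)).trans ?_
    linarith
  have h2 : ((hfin.toFinset.biUnion A).card : ℝ) ≤
      (hfin.toFinset.card : ℝ) * ∏ s : (Σ i, Fin (g i)), (5 * (q : ℝ) ^ ((G : ℝ) / 2 - expo g s)) := by
    refine (Nat.cast_le.2 Finset.card_biUnion_le).trans ?_
    push_cast
    refine (Finset.sum_le_card_nsmul _ _ _ fun x _ => hA x).trans ?_
    rw [nsmul_eq_mul]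
  have h3 : (hfin.toFinset.card : ℝ) ≤ D * ((q : ℝ) ^ (δ - 1 / 6) * ∏ s, (q : ℝ) ^ expo g s) := by
    rw [← Set.ncard_eq_toFinset_card _ hfin]
    exact hcard
  refine h1.trans (h2.trans ((mul_le_mul_of_nonneg_right h3 (Finset.prod_nonneg fun s _ => by positivity)).trans
    (le_of_eq ?_)))
  have h4 : ∏ s : (Σ i, Fin (g i)), (5 * (q : ℝ) ^ ((G : ℝ) / 2 - expo g s)) =
      5 ^ Fintype.card (Σ i, Fin (g i)) * ∏ s : (Σ i, Fin (g i)), (q : ℝ) ^ ((G : ℝ) / 2 - expo g s) := by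
    rw [Finset.prod_mul_distrib, Finset.prod_const, Finset.card_univ]
  have h5 : (∏ s : (Σ i, Fin (g i)), (q : ℝ) ^ expo g s) * ∏ s : (Σ i, Fin (g i)), (q : ℝ) ^ ((G : ℝ) / 2 - expo g s) =
      (q : ℝ) ^ ((Fintype.card (Σ i, Fin (g i)) : ℝ) * ((G : ℝ) / 2)) := by
    rw [← Finset.prod_mul_distrib]
    have h6 : ∀ s : (Σ i, Fin (g i)), (q : ℝ) ^ expo g s * (q : ℝ) ^ ((G : ℝ) / 2 - expo g s) =
        (q : ℝ) ^ ((G : ℝ) / 2) := by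
      intro s
      rw [← Real.rpow_add hq0]
      congr 1
      ring
    rw [Finset.prod_congr rfl fun s _ => h6 s, Finset.prod_const, Finset.card_univ, ← Real.rpow_natCast,
      ← Real.rpow_mul hq0.le]
    congr 1
    ring
  rw [h4]
  have h6 : (q : ℝ) ^ ((Fintype.card (Σ i, Fin (g i)) : ℝ) * ((G : ℝ) / 2) - 1 / 6 + δ) =
      (q : ℝ) ^ ((Fintype.card (Σ i, Fin (g i)) : ℝ) * ((G : ℝ) / 2)) * (q : ℝ) ^ (δ - 1 / 6) := by
    rw [← Real.rpow_add hq0]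
    congr 1
    ring
  rw [h6, ← h5]
  ring

/-- the size of a prime power -/
noncomputable def sz {S : Type} (t : ℕ × S) : ℝ := max 1 (t.1 : ℝ)

/-- **The dimension of the exceptional set.** -/
theorem dim_near (g : I → ℕ) (P : ℕ → (I → ℤ[X]) → Prop) (hP : InAllLattices g P) {G : ℕ} (hG : ∀ i, g i ≤ G)
    (hn : 0 < ∑ i, g i) (𝒬 : Set ℕ) (τ η : ℝ) (hτ : 0 ≤ τ) (h𝒬 : SparsePowers 𝒬 τ) (hη : 0 ≤ η)
    (h : (∑ i, g i : ℕ) * η + τ < 1 / 6) :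
    ∃ E : Set ((Σ i, Fin (g i)) → ℝ),
      dimH E ≤ ENNReal.ofReal ((∑ i, g i : ℕ) - (1 / 6 - (∑ i, g i : ℕ) * η - τ) / ((G : ℝ) / 2 - η)) ∧
      ∀ ξ, ξ ∉ E → {q | q ∈ 𝒬 ∧ ¬ AllNear g P η q ξ}.Finite := by
  classical
  obtain ⟨n, hn'⟩ : ∃ n : ℝ, n = ((∑ i, g i : ℕ) : ℝ) := ⟨_, rfl⟩
  have hcard : (Fintype.card (Σ i, Fin (g i)) : ℝ) = n := by rw [card_idx, hn']
  rw [← hn'] at h ⊢
  have hn1 : (1 : ℝ) ≤ n := by
    rw [hn']
    exact_mod_cast hn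
  have hG1 : (1 : ℝ) ≤ G := by
    have h1 : ∃ i, 0 < g i := by
      by_contra hcon
      push Not at hcon
      have : ∑ i, g i = 0 := Finset.sum_eq_zero fun i _ => Nat.le_zero.1 (hcon i)
      omega
    obtain ⟨i, hi⟩ := h1
    exact_mod_cast (show 1 ≤ G from le_trans hi (hG i))
  have hη6 : η < 1 / 6 := by nlinarith
  obtain ⟨κ, hκ⟩ : ∃ κ : ℝ, κ = (G : ℝ) / 2 - η := ⟨_, rfl⟩
  have hκ0 : 0 < κ := by rw [hκ]; linarith
  obtain ⟨s₀, hs₀⟩ : ∃ s₀ : ℝ, s₀ = n * ((G : ℝ) / 2) - 1 / 6 + τ := ⟨_, rfl⟩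
  have hs₀0 : 0 ≤ s₀ := by rw [hs₀]; nlinarith
  have hval : s₀ / κ = n - (1 / 6 - n * η - τ) / ((G : ℝ) / 2 - η) := by
    rw [hs₀, ← hκ, div_eq_iff hκ0.ne', sub_mul, div_mul_cancel₀ _ hκ0.ne', hκ]
    ring
  let φ : ℕ × ((Σ i, Fin (g i)) → ℤ) → ((Σ i, Fin (g i)) → ℝ) := fun t s => (t.2 s : ℝ) * (t.1 : ℝ) ^ (-κ)
  have hdim : ∀ K : ℕ, ∃ E : Set ((Σ i, Fin (g i)) → ℝ), dimH E ≤ ENNReal.ofReal (s₀ / κ) ∧
      ∀ ξ, ξ ∉ E → ∀ A : ℝ, {t | dist (φ t) ξ ≤ A * sz t ^ (-κ) ∧ (t.1 ∈ 𝒬 ∧ t.2 ∈ Grid g P G K η t.1)}.Finite := by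
    intro K
    refine Pool.Agent.R559.NP.near_dim (H := sz) (fun t => le_max_left _ _)
      (Bad := fun t => t.1 ∈ 𝒬 ∧ t.2 ∈ Grid g P G K η t.1) hs₀0 hκ0 (fun ε hε => ?_) φ
    obtain ⟨δ, hδ⟩ : ∃ δ : ℝ, δ = min (ε / 2) (1 / 6) := ⟨_, rfl⟩
    have hδ0 : 0 < δ := by rw [hδ]; exact lt_min (by linarith) (by norm_num)
    have hδ1 : δ ≤ ε / 2 := by rw [hδ]; exact min_le_left _ _
    have hδ2 : δ ≤ 1 / 6 := by rw [hδ]; exact min_le_right _ _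
    obtain ⟨D, hD0, hD⟩ := count_grid g P hP hG K η (by linarith) δ hδ0 hδ2
    obtain ⟨C, hC⟩ := h𝒬.2 (ε / 2) (by linarith)
    refine ⟨|C| * D, fun B hB => ?_⟩
    have hB0 : 0 < B := by linarith
    have hfl : (⌊B⌋₊ : ℝ) ≤ B := Nat.floor_le hB0.le
    have hfl1 : 1 ≤ ⌊B⌋₊ := Nat.le_floor (by exact_mod_cast hB)
    obtain ⟨Z, hZ⟩ : ∃ Z : Finset ℕ, Z = (Finset.range (⌊B⌋₊ + 1)).filter (fun q => q ∈ 𝒬) := ⟨_, rfl⟩
    have hZm : ∀ q ∈ Z, q ∈ 𝒬 ∧ q ≤ ⌊B⌋₊ := by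
      intro q hq
      rw [hZ, Finset.mem_filter, Finset.mem_range] at hq
      exact ⟨hq.2, by omega⟩
    have hZc : (Z.card : ℝ) ≤ |C| * B ^ (τ + ε / 2) := by
      have h1 : {q | q ∈ 𝒬 ∧ q ≤ ⌊B⌋₊} = (Z : Set ℕ) := by
        ext q
        rw [hZ, Finset.mem_coe, Finset.mem_filter, Finset.mem_range]
        constructor
        · rintro ⟨h1, h2⟩
          exact ⟨by omega, h1⟩
        · rintro ⟨h1, h2⟩
          exact ⟨h2, by omega⟩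
      have h2 := hC ⌊B⌋₊ hfl1
      rw [h1, Set.ncard_coe_finset] at h2
      refine h2.trans ?_
      exact mul_le_mul (le_abs_self C) (Real.rpow_le_rpow (by positivity) hfl (by linarith)) (by positivity)
        (abs_nonneg C)
    let F : ℕ → Finset ((Σ i, Fin (g i)) → ℤ) := fun q =>
      if hq : IsPrimePow q then (hD q hq).1.toFinset else ∅
    have hsub : {t : ℕ × ((Σ i, Fin (g i)) → ℤ) | (t.1 ∈ 𝒬 ∧ t.2 ∈ Grid g P G K η t.1) ∧ sz t ≤ B} ⊆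
        ((Z.biUnion fun q => (F q).image (Prod.mk q) : Finset _) : Set (ℕ × ((Σ i, Fin (g i)) → ℤ))) := by
      rintro ⟨q, y⟩ ⟨⟨h1, h2⟩, h3⟩
      have hq := h𝒬.1 q h1
      rw [Finset.mem_coe, Finset.mem_biUnion]
      refine ⟨q, ?_, ?_⟩
      · rw [hZ, Finset.mem_filter, Finset.mem_range]
        refine ⟨?_, h1⟩
        have h4 : (q : ℝ) ≤ B := (le_max_right _ _).trans h3
        have := Nat.le_floor h4
        omega
      · rw [Finset.mem_image]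
        refine ⟨y, ?_, rfl⟩
        show y ∈ F q
        simp only [F]
        rw [dif_pos hq, Set.Finite.mem_toFinset]
        exact h2
    refine ⟨(Finset.finite_toSet _).subset hsub, ?_⟩
    have h1 : (({t : ℕ × ((Σ i, Fin (g i)) → ℤ) |
        (t.1 ∈ 𝒬 ∧ t.2 ∈ Grid g P G K η t.1) ∧ sz t ≤ B}.ncard : ℕ) : ℝ) ≤
        ((Z.biUnion fun q => (F q).image (Prod.mk q)).card : ℝ) := by
      have := Set.ncard_le_ncard hsub (Finset.finite_toSet _)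
      rw [Set.ncard_coe_finset] at this
      exact_mod_cast this
    have hexp : 0 ≤ n * ((G : ℝ) / 2) - 1 / 6 + δ := by nlinarith
    have h2 : ∀ q ∈ Z, ((((F q).image (Prod.mk q)).card : ℕ) : ℝ) ≤ D * B ^ (n * ((G : ℝ) / 2) - 1 / 6 + δ) := by
      intro q hq
      have hq' := hZm q hq
      have hqp := h𝒬.1 q hq'.1
      have h3 : (((F q).image (Prod.mk q)).card : ℝ) ≤ ((F q).card : ℝ) := by exact_mod_cast Finset.card_image_le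
      have h4 : ((F q).card : ℝ) ≤ D * (q : ℝ) ^ (n * ((G : ℝ) / 2) - 1 / 6 + δ) := by
        have h5 := (hD q hqp).2
        rw [hcard] at h5
        rw [Set.ncard_eq_toFinset_card _ (hD q hqp).1] at h5
        simp only [F]
        rw [dif_pos hqp]
        exact h5
      refine h3.trans (h4.trans (mul_le_mul_of_nonneg_left ?_ hD0))
      refine Real.rpow_le_rpow (Nat.cast_nonneg _) ?_ hexp
      exact le_trans (by exact_mod_cast hq'.2) hfl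
    have h3 : ((Z.biUnion fun q => (F q).image (Prod.mk q)).card : ℝ) ≤
        (Z.card : ℝ) * (D * B ^ (n * ((G : ℝ) / 2) - 1 / 6 + δ)) := by
      refine (Nat.cast_le.2 Finset.card_biUnion_le).trans ?_
      push_cast
      refine (Finset.sum_le_card_nsmul _ _ _ h2).trans ?_
      rw [nsmul_eq_mul]
    refine h1.trans (h3.trans ((mul_le_mul_of_nonneg_right hZc (by positivity)).trans ?_))
    have h4 : |C| * B ^ (τ + ε / 2) * (D * B ^ (n * ((G : ℝ) / 2) - 1 / 6 + δ)) =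
        |C| * D * B ^ (τ + ε / 2 + (n * ((G : ℝ) / 2) - 1 / 6 + δ)) := by
      rw [Real.rpow_add hB0 (τ + ε / 2) (n * ((G : ℝ) / 2) - 1 / 6 + δ)]
      ring
    rw [h4]
    refine mul_le_mul_of_nonneg_left ?_ (by positivity)
    refine Real.rpow_le_rpow_of_exponent_le hB ?_
    rw [hs₀]
    linarith
  choose E hE1 hE2 using hdim
  refine ⟨⋃ K, E K, ?_, fun ξ hξ => ?_⟩
  · rw [dimH_iUnion, ← hval]
    exact iSup_le hE1
  rw [Set.mem_iUnion, not_exists] at hξ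
  obtain ⟨K, hK⟩ : ∃ K : ℕ, ∀ s, |ξ s| ≤ K := by
    obtain ⟨K, hK⟩ := exists_nat_ge (∑ s, |ξ s|)
    exact ⟨K, fun s => (Finset.single_le_sum (f := fun s => |ξ s|) (fun t _ => abs_nonneg _)
      (Finset.mem_univ s)).trans hK⟩
  have hfin := hE2 K ξ (hξ K) 1
  -- the nearest grid point
  let y : ℕ → ((Σ i, Fin (g i)) → ℤ) := fun q s => round (ξ s / (q : ℝ) ^ (-κ))
  refine Set.Finite.of_finite_image (f := fun q => ((q, y q) : ℕ × ((Σ i, Fin (g i)) → ℤ))) (hfin.subset ?_)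
    (fun a _ b _ hab => (Prod.mk.inj hab).1)
  rintro _ ⟨q, ⟨hq𝒬, hq2⟩, rfl⟩
  have hq := h𝒬.1 q hq𝒬
  have hq1 : (1 : ℝ) ≤ q := by exact_mod_cast hq.one_lt.le
  have hq0 : (0 : ℝ) < q := by linarith
  obtain ⟨ρ, hρ⟩ : ∃ ρ : ℝ, ρ = (q : ℝ) ^ (-κ) := ⟨_, rfl⟩
  have hρ0 : 0 < ρ := by rw [hρ]; exact Real.rpow_pos_of_pos hq0 _
  have hρ1 : ρ ≤ 1 := by rw [hρ]; exact Real.rpow_le_one_of_one_le_of_nonpos hq1 (by linarith)
  have hy : ∀ s, |(y q s : ℝ) * ρ - ξ s| ≤ ρ / 2 := by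
    intro s
    have h1 := abs_sub_round (ξ s / ρ)
    have h2 : (y q s : ℝ) * ρ - ξ s = -((ξ s / ρ - (round (ξ s / ρ) : ℤ)) * ρ) := by
      have h3 : y q s = round (ξ s / ρ) := by rw [hρ]
      rw [h3]
      field_simp
      ring
    rw [h2, abs_neg, abs_mul, abs_of_pos hρ0]
    nlinarith
  have hsz : sz ((q, y q) : ℕ × ((Σ i, Fin (g i)) → ℤ)) = q := max_eq_right hq1
  refine ⟨?_, hq𝒬, ?_, ?_⟩
  · show dist (φ (q, y q)) ξ ≤ 1 * sz ((q, y q) : ℕ × ((Σ i, Fin (g i)) → ℤ)) ^ (-κ)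
    rw [hsz, one_mul, ← hρ, dist_pi_le_iff hρ0.le]
    intro s
    rw [Real.dist_eq]
    show |(y q s : ℝ) * (q : ℝ) ^ (-κ) - ξ s| ≤ ρ
    rw [← hρ]
    linarith [hy s]
  · intro s
    show |(y q s : ℝ)| * (q : ℝ) ^ (-((G : ℝ) / 2 - η)) ≤ K + 1
    rw [← hκ, ← hρ, ← abs_of_pos hρ0, ← abs_mul]
    have h1 : |(y q s : ℝ) * ρ| ≤ |(y q s : ℝ) * ρ - ξ s| + |ξ s| := by
      have := abs_add_le ((y q s : ℝ) * ρ - ξ s) (ξ s)
      rwa [sub_add_cancel] at this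
    linarith [hy s, hK s]
  · unfold AllNear at hq2
    push Not at hq2
    obtain ⟨x, h1, h2, h3⟩ := hq2
    refine ⟨x, ⟨h2, h3⟩, fun s => ?_⟩
    show |(x s : ℝ) - (q : ℝ) ^ expo g s * ((y q s : ℝ) * (q : ℝ) ^ (-((G : ℝ) / 2 - η)))| ≤ 2 * (q : ℝ) ^ η
    rw [← hκ, ← hρ]
    have hqe : 0 < (q : ℝ) ^ expo g s := Real.rpow_pos_of_pos hq0 _
    have h4 := h1 s
    have h5 : |(q : ℝ) ^ expo g s * ξ s - (q : ℝ) ^ expo g s * ((y q s : ℝ) * ρ)| ≤ (q : ℝ) ^ expo g s * (ρ / 2) := by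
      rw [← mul_sub, abs_mul, abs_of_pos hqe]
      refine mul_le_mul_of_nonneg_left ?_ hqe.le
      rw [abs_sub_comm]
      exact hy s
    have h6 : (q : ℝ) ^ expo g s * ρ ≤ (q : ℝ) ^ η := by
      rw [hρ, ← Real.rpow_add hq0]
      refine Real.rpow_le_rpow_of_exponent_le hq1 ?_
      rw [hκ]
      linarith [expo_le hG s]
    have h7 : |(x s : ℝ) - (q : ℝ) ^ expo g s * ((y q s : ℝ) * ρ)| ≤
        |(x s : ℝ) - (q : ℝ) ^ expo g s * ξ s| + |(q : ℝ) ^ expo g s * ξ s - (q : ℝ) ^ expo g s * ((y q s : ℝ) * ρ)| := by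
      exact abs_sub_le _ _ _
    nlinarith

end

end Pool.Agent.V7H14.WP
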